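import Pool.Agent.Lib.MP_293bbf_nt.G3

/-!
# MP_3ea60f_nt: small shifts `q` are useless for almost all `n`

By Selberg's sieve for the pairs of primes with a bounded difference (`MP293bbf.pair_bound`) and
Chebyshev's bound, at most `C B N / log N` of the integers `n ≤ N` have an integer `1 ≤ q ≤ B` such that
`p_{n-q} + q + 1` is prime.
-/

namespace MP3ea60f

open Finset Filter Topology

/-- `p_k`, the `k`-th prime: `p_1 = 2`, `p_2 = 3`, `p_3 = 5`, and so on. -/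
noncomputable def pr (k : ℕ) : ℕ := Nat.nth Nat.Prime (k - 1)

theorem pr_prime (k : ℕ) : (pr k).Prime := Nat.prime_nth_prime _

theorem pr_mono {a b : ℕ} (h : a ≤ b) : pr a ≤ pr b :=
  Nat.nth_monotone Nat.infinite_setOfPred_prime (by omega)

theorem le_pr (N : ℕ) : N ≤ pr N := by
  have := Nat.add_two_le_nth_prime (N - 1)
  unfold pr
  omega

theorem card_le_twin (N B : ℕ) :
    (({n | n ≤ N ∧ ∃ q, 1 ≤ q ∧ q ≤ B ∧ q < n ∧ (pr (n - q) + q + 1).Prime} : Set ℕ).ncard : ℝ) ≤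
      ∑ d ∈ Icc 1 (B + 1), MP293bbf.twin (pr N) d := by
  classical
  set T : Finset (Σ _ : ℕ, ℕ) := (Icc 1 (B + 1)).sigma
    (fun d => (Icc 1 (pr N)).filter (fun p => p.Prime ∧ (p + d).Prime)) with hT
  set f : (Σ _ : ℕ, ℕ) → ℕ := fun x => Nat.count Nat.Prime x.2 + x.1 with hf
  have hsub : ({n | n ≤ N ∧ ∃ q, 1 ≤ q ∧ q ≤ B ∧ q < n ∧ (pr (n - q) + q + 1).Prime} : Set ℕ) ⊆
      ↑(T.image f) := by
    rintro n ⟨hn, q, h1, h2, h3, h4⟩
    rw [Finset.mem_coe, Finset.mem_image]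
    refine ⟨⟨q + 1, pr (n - q)⟩, ?_, ?_⟩
    · rw [hT, Finset.mem_sigma]
      refine ⟨Finset.mem_Icc.2 ⟨show 1 ≤ q + 1 by omega, show q + 1 ≤ B + 1 by omega⟩, ?_⟩
      rw [Finset.mem_filter, Finset.mem_Icc]
      exact ⟨⟨(pr_prime _).one_lt.le, pr_mono (by omega)⟩, pr_prime _, by
        rw [← add_assoc]; exact h4⟩
    · show Nat.count Nat.Prime (pr (n - q)) + (q + 1) = n
      unfold pr
      rw [Nat.count_nth_of_infinite Nat.infinite_setOfPred_prime]
      omega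
  have h1 := Set.ncard_le_ncard hsub (Finset.finite_toSet _)
  rw [Set.ncard_coe_finset] at h1
  have h2 : (T.image f).card ≤ T.card := Finset.card_image_le
  have h3 : (T.card : ℝ) = ∑ d ∈ Icc 1 (B + 1), MP293bbf.twin (pr N) d := by
    rw [hT, Finset.card_sigma]
    push_cast
    rfl
  rw [← h3]
  exact_mod_cast h1.trans h2

theorem pr_le {N : ℕ} (hN : 2 ≤ N) : (pr N : ℝ) ≤ 3 * N * Real.log (pr N) := by
  set P := pr N with hP
  have hNP : N ≤ P := le_pr N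
  have hP2 : (2 : ℝ) ≤ P := by exact_mod_cast hN.trans hNP
  have h1 := Chebyshev.psi_ge P
  have h2 := Chebyshev.psi_le_primeCounting_mul_log P
  have h3 : Nat.primeCounting P = N := by
    unfold Nat.primeCounting Nat.primeCounting'
    rw [hP]
    unfold pr
    rw [Nat.count_nth_succ_of_infinite Nat.infinite_setOfPred_prime]
    omega
  rw [h3] at h2
  have h4 : Real.log ((P : ℝ) + 1) ≤ 2 * Real.log P := by
    have : Real.log ((P : ℝ) + 1) ≤ Real.log ((P : ℝ) ^ 2) :=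
      Real.log_le_log (by linarith) (by nlinarith)
    rwa [Real.log_pow, Nat.cast_ofNat] at this
  have h5 : 0 < Real.log P := Real.log_pos (by linarith)
  have h6 : (2 : ℝ) ≤ N := by exact_mod_cast hN
  have h7 := Real.log_two_gt_d9
  have h8 : 2 * Real.log P ≤ N * Real.log P := mul_le_mul_of_nonneg_right h6 h5.le
  have h9 : (P : ℝ) * (2 / 3) ≤ P * Real.log 2 := mul_le_mul_of_nonneg_left (by linarith) (by linarith)
  nlinarith

/-- The quantitative bound. -/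
theorem bound : ∃ C : ℝ, 0 < C ∧ ∀ N B : ℕ, 2 ≤ N →
    (({n | n ≤ N ∧ ∃ q, 1 ≤ q ∧ q ≤ B ∧ q < n ∧ (pr (n - q) + q + 1).Prime} : Set ℕ).ncard : ℝ) ≤
      C * B * N / Real.log N := by
  obtain ⟨C1, X0, hC1, hb⟩ := MP293bbf.pair_bound
  have hX1 : 0 < Real.log (max X0 2) :=
    Real.log_pos (lt_of_lt_of_le one_lt_two (le_max_right _ _))
  refine ⟨6 * C1 + Real.log (max X0 2), by positivity, ?_⟩
  intro N B hN
  have hNr : (2 : ℝ) ≤ N := by exact_mod_cast hN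
  have hlN : 0 < Real.log N := Real.log_pos (by linarith)
  rcases Nat.eq_zero_or_pos B with hB | hB
  · subst hB
    have he : ({n | n ≤ N ∧ ∃ q, 1 ≤ q ∧ q ≤ 0 ∧ q < n ∧ (pr (n - q) + q + 1).Prime} : Set ℕ) = ∅ := by
      ext n
      simp only [Set.mem_ofPred_eq, Set.mem_empty_iff_false, iff_false]
      rintro ⟨_, q, h1, h2, _⟩
      omega
    rw [he]
    simp
  have hBr : (1 : ℝ) ≤ B := by exact_mod_cast hB
  rcases le_or_gt X0 (pr N : ℝ) with hX | hX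
  · have h1 := (card_le_twin N B).trans (hb (pr N) hX (B + 1))
    have h2 := pr_le hN
    have h3 : Real.log N ≤ Real.log (pr N) :=
      Real.log_le_log (by linarith) (by exact_mod_cast le_pr N)
    have hlP : 0 < Real.log (pr N) := lt_of_lt_of_le hlN h3
    refine h1.trans ?_
    have h4 : C1 * ((B + 1 : ℕ) : ℝ) * (pr N) / (Real.log (pr N)) ^ 2 ≤
        6 * C1 * B * N / Real.log (pr N) := by
      rw [div_le_div_iff₀ (by positivity) hlP]
      have h5 : ((B + 1 : ℕ) : ℝ) ≤ 2 * B := by push_cast; linarith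
      calc C1 * ((B + 1 : ℕ) : ℝ) * (pr N) * Real.log (pr N)
          ≤ C1 * (2 * B) * (3 * N * Real.log (pr N)) * Real.log (pr N) := by
            gcongr
        _ = 6 * C1 * B * N * Real.log (pr N) ^ 2 := by ring
    refine h4.trans ?_
    have h6 : 6 * C1 * B * N / Real.log (pr N) ≤ 6 * C1 * B * N / Real.log N := by
      gcongr
    refine h6.trans ?_
    gcongr
    linarith
  · have h1 : (({n | n ≤ N ∧ ∃ q, 1 ≤ q ∧ q ≤ B ∧ q < n ∧ (pr (n - q) + q + 1).Prime} :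
        Set ℕ).ncard : ℝ) ≤ N := by
      have hs : ({n | n ≤ N ∧ ∃ q, 1 ≤ q ∧ q ≤ B ∧ q < n ∧ (pr (n - q) + q + 1).Prime} : Set ℕ) ⊆
          ↑(Icc 1 N) := by
        rintro n ⟨hn, q, h1, h2, h3, h4⟩
        rw [Finset.mem_coe, Finset.mem_Icc]
        omega
      have h2 := Set.ncard_le_ncard hs (Finset.finite_toSet _)
      rw [Set.ncard_coe_finset, Nat.card_Icc] at h2
      exact_mod_cast (by omega :
        ({n | n ≤ N ∧ ∃ q, 1 ≤ q ∧ q ≤ B ∧ q < n ∧ (pr (n - q) + q + 1).Prime} : Set ℕ).ncard ≤ N)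
    refine h1.trans ?_
    rw [le_div_iff₀ hlN]
    have h2 : (N : ℝ) ≤ pr N := by exact_mod_cast le_pr N
    have h3 : Real.log N ≤ Real.log (max X0 2) :=
      Real.log_le_log (by linarith) ((h2.trans hX.le).trans (le_max_left _ _))
    have h4 : (N : ℝ) * Real.log N ≤ N * Real.log (max X0 2) :=
      mul_le_mul_of_nonneg_left h3 (by linarith)
    have h5 : (0 : ℝ) ≤ N * (6 * C1) * B := by positivity
    have h6 : (N : ℝ) * Real.log (max X0 2) ≤ N * Real.log (max X0 2) * B :=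
      le_mul_of_one_le_right (by positivity) hBr
    nlinarith

/-- The density statement. -/
theorem density (ψ : ℕ → ℝ) (hψ : Tendsto (fun n : ℕ => ψ n / Real.log n) atTop (𝓝 0)) :
    Tendsto (fun N : ℕ =>
      (({n | n ≤ N ∧ ∃ q : ℕ, 1 ≤ q ∧ (q : ℝ) ≤ ψ n ∧ q < n ∧ (pr (n - q) + q + 1).Prime} :
        Set ℕ).ncard : ℝ) / N) atTop (𝓝 0) := by
  obtain ⟨C, hC, hb⟩ := bound
  rw [Metric.tendsto_atTop]
  intro ε hε
  set δ : ℝ := ε / (4 * C) with hδ
  have hδ0 : 0 < δ := by positivity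
  rw [Metric.tendsto_atTop] at hψ
  obtain ⟨n0, hn0⟩ := hψ δ hδ0
  set M : ℝ := ∑ n ∈ range (n0 + 2), |ψ n| with hM
  have hM0 : 0 ≤ M := sum_nonneg fun n _ => abs_nonneg _
  have hle : ∀ N : ℕ, 2 ≤ N → ∀ n, n ≤ N → ψ n ≤ δ * Real.log N + M := by
    intro N hN n hn
    have hlN : 0 ≤ Real.log N := Real.log_nonneg (by exact_mod_cast (by omega : 1 ≤ N))
    rcases lt_or_ge n (n0 + 2) with h1 | h1
    · have h2 : |ψ n| ≤ M := single_le_sum (f := fun n => |ψ n|) (fun i _ => abs_nonneg _)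
        (mem_range.2 h1)
      have h3 := le_abs_self (ψ n)
      nlinarith [mul_nonneg hδ0.le hlN]
    · have hnr : (2 : ℝ) ≤ n := by exact_mod_cast (by omega : 2 ≤ n)
      have hln : 0 < Real.log n := Real.log_pos (by linarith)
      have h2 := hn0 n (by omega)
      rw [Real.dist_eq, sub_zero] at h2
      have h3 := (le_abs_self _).trans h2.le
      rw [div_le_iff₀ hln] at h3
      have h4 : Real.log n ≤ Real.log N := Real.log_le_log (by linarith) (by exact_mod_cast hn)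
      nlinarith [mul_le_mul_of_nonneg_left h4 hδ0.le]
  have hlog : Tendsto (fun N : ℕ => Real.log (N : ℝ)) atTop atTop :=
    Real.tendsto_log_atTop.comp tendsto_natCast_atTop_atTop
  have hev := (hlog.eventually_ge_atTop (4 * C * (M + 1) / ε)).and (eventually_ge_atTop 2)
  obtain ⟨N1, hN1⟩ := eventually_atTop.1 hev
  refine ⟨N1, fun N hN => ?_⟩
  obtain ⟨h1, h2⟩ := hN1 N hN
  have hNr : (2 : ℝ) ≤ N := by exact_mod_cast h2
  have hlN : 0 < Real.log N := Real.log_pos (by linarith)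
  set B : ℕ := ⌊δ * Real.log N + M⌋₊ with hB
  have hBr : (B : ℝ) ≤ δ * Real.log N + M := Nat.floor_le (by positivity)
  have hsub : ({n | n ≤ N ∧ ∃ q : ℕ, 1 ≤ q ∧ (q : ℝ) ≤ ψ n ∧ q < n ∧ (pr (n - q) + q + 1).Prime} :
      Set ℕ) ⊆ {n | n ≤ N ∧ ∃ q, 1 ≤ q ∧ q ≤ B ∧ q < n ∧ (pr (n - q) + q + 1).Prime} := by
    rintro n ⟨hn, q, q1, q2, q3, q4⟩
    exact ⟨hn, q, q1, Nat.le_floor (q2.trans (hle N h2 n hn)), q3, q4⟩
  have hfin : ({n | n ≤ N ∧ ∃ q, 1 ≤ q ∧ q ≤ B ∧ q < n ∧ (pr (n - q) + q + 1).Prime} :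
      Set ℕ).Finite := (Set.finite_Iic N).subset fun n hn => hn.1
  have h3 : (({n | n ≤ N ∧ ∃ q : ℕ, 1 ≤ q ∧ (q : ℝ) ≤ ψ n ∧ q < n ∧ (pr (n - q) + q + 1).Prime} :
      Set ℕ).ncard : ℝ) ≤ C * B * N / Real.log N :=
    le_trans (by exact_mod_cast Set.ncard_le_ncard hsub hfin) (hb N B h2)
  have h0 : (0 : ℝ) ≤ (({n | n ≤ N ∧ ∃ q : ℕ, 1 ≤ q ∧ (q : ℝ) ≤ ψ n ∧ q < n ∧
      (pr (n - q) + q + 1).Prime} : Set ℕ).ncard : ℝ) := Nat.cast_nonneg _
  rw [Real.dist_eq, sub_zero, abs_of_nonneg (by positivity), div_lt_iff₀ (by linarith)]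
  refine h3.trans_lt ?_
  rw [div_lt_iff₀ hlN]
  have h4 : C * B * N ≤ C * (δ * Real.log N + M) * N := by gcongr
  refine h4.trans_lt ?_
  have h5 : C * (M + 1) ≤ ε / 4 * Real.log N := by
    rw [div_le_iff₀ hε] at h1
    nlinarith
  have h6 : C * δ = ε / 4 := by
    rw [hδ]
    field_simp
  have h7 : C * (δ * Real.log N + M) < ε * Real.log N := by
    nlinarith
  calc C * (δ * Real.log N + M) * N < ε * Real.log N * N := by
        exact mul_lt_mul_of_pos_right h7 (by linarith)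
    _ = ε * N * Real.log N := by ring

/-- If there are only finitely many twin primes, then almost no `n` has a prime `q` as in Q1. -/
theorem finite_twins (hT : {q : ℕ | q.Prime ∧ (q + 2).Prime}.Finite) :
    Tendsto (fun N : ℕ =>
      (({n | n ≤ N ∧ ∃ q : ℕ, q.Prime ∧ q < n ∧ (q + 2).Prime ∧ (pr (n - q) + q + 1).Prime} :
        Set ℕ).ncard : ℝ) / N) atTop (𝓝 0) := by
  obtain ⟨B, hB⟩ := hT.bddAbove
  have hlog : Tendsto (fun N : ℕ => Real.log (N : ℝ)) atTop atTop :=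
    Real.tendsto_log_atTop.comp tendsto_natCast_atTop_atTop
  have h1 := density (fun _ => (B : ℝ)) (tendsto_const_nhds.div_atTop hlog)
  refine squeeze_zero (fun N => by positivity) (fun N => ?_) h1
  have hfin : ({n | n ≤ N ∧ ∃ q : ℕ, 1 ≤ q ∧ (q : ℝ) ≤ (B : ℝ) ∧ q < n ∧
      (pr (n - q) + q + 1).Prime} : Set ℕ).Finite := (Set.finite_Iic N).subset fun n hn => hn.1
  have hsub : ({n | n ≤ N ∧ ∃ q : ℕ, q.Prime ∧ q < n ∧ (q + 2).Prime ∧
      (pr (n - q) + q + 1).Prime} : Set ℕ) ⊆ {n | n ≤ N ∧ ∃ q : ℕ, 1 ≤ q ∧ (q : ℝ) ≤ (B : ℝ) ∧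
      q < n ∧ (pr (n - q) + q + 1).Prime} := by
    rintro n ⟨hn, q, q1, q2, q3, q4⟩
    exact ⟨hn, q, q1.one_lt.le, by exact_mod_cast hB ⟨q1, q3⟩, q2, q4⟩
  gcongr

end MP3ea60f
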